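import Pool.Agent.Helper23.MV.StH

/-! # Project MV, module DH0 -/

set_option autoImplicit false

namespace Pool.Agent.Helper70.MV

open Finset ArithmeticFunction
open Pool.Agent.Helper23.MV

/-- the truncated series of `ff` -/
private noncomputable def TT (e : PCh) (δ s y : ℝ) : ℝ := ∑ n ∈ Ioc 0 ⌊y⌋₊, ff e δ n * (n : ℝ) ^ (-s)

private theorem hd_zero_DH0 (e : PCh) (δ : ℝ) (d m : ℕ) (hd0 : 1 ≤ d) (h : d ^ 2 < m) :
    hd e δ d m = 0 := by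
  unfold hd
  rw [if_neg]
  rintro ⟨_, h2⟩
  exact absurd (Nat.le_of_dvd (by positivity) h2) (by omega)

/-- sum over the multiples of m -/
private theorem mult_DH0 (f : ℕ → ℝ) (m N : ℕ) (hm : 1 ≤ m) :
    ∑ n ∈ Ioc 0 N, (if m ∣ n then f n else 0) = ∑ k ∈ Ioc 0 (N / m), f (m * k) := by
  rw [← Finset.sum_filter]
  symm
  refine Finset.sum_bij (fun k _ => m * k) ?_ ?_ ?_ ?_
  · intro k hk
    rw [Finset.mem_Ioc] at hk
    rw [Finset.mem_filter, Finset.mem_Ioc]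
    refine ⟨⟨Nat.mul_pos hm hk.1, ?_⟩, dvd_mul_right m k⟩
    calc m * k ≤ m * (N / m) := Nat.mul_le_mul_left m hk.2
      _ ≤ N := Nat.mul_div_le N m
  · intro a _ b _ h
    exact Nat.eq_of_mul_eq_mul_left hm h
  · intro n hn
    rw [Finset.mem_filter, Finset.mem_Ioc] at hn
    obtain ⟨k, rfl⟩ := hn.2
    refine ⟨k, ?_, rfl⟩
    rw [Finset.mem_Ioc]
    refine ⟨?_, ?_⟩
    · rcases Nat.eq_zero_or_pos k with h | h
      · rw [h] at hn; simp at hn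
      · exact h
    · rw [Nat.le_div_iff_mul_le hm, mul_comm]
      exact hn.1.2
  · intro k _
    rfl

private theorem sumD_DH0 (hHdi : StHdi) (e : PCh) (δ s x : ℝ) (he : e.χ ^ 2 = 1) (hδ : 0 ≤ δ)
    (D : ℕ) (hD : Squarefree D) :
    ∑ n ∈ Ioc 0 ⌊x⌋₊, (if D ∣ n then ff e δ n else 0) * (n : ℝ) ^ (-s) =
      ∑ m ∈ Icc 1 (D ^ 2), hd e δ D m * (m : ℝ) ^ (-s) * TT e δ s (x / m) := by
  have hD1 : 1 ≤ D := Nat.one_le_iff_ne_zero.2 hD.ne_zero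
  have h1 : ∀ n ∈ Ioc 0 ⌊x⌋₊, (if D ∣ n then ff e δ n else 0) * (n : ℝ) ^ (-s) =
      ∑ m ∈ Icc 1 (D ^ 2), (if m ∣ n then hd e δ D m * ff e δ (n / m) * (n : ℝ) ^ (-s) else 0) := by
    intro n hn
    rw [Finset.mem_Ioc] at hn
    rw [(hHdi e δ he hδ D hD).1 n hn.1, Finset.sum_mul, ← Finset.sum_filter]
    symm
    refine Finset.sum_subset_zero_on_sdiff ?_ ?_ ?_
    · intro m hm
      rw [Finset.mem_filter, Finset.mem_Icc] at hm
      exact Nat.mem_divisors.2 ⟨hm.2, by omega⟩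
    · intro m hm
      rw [Finset.mem_sdiff, Nat.mem_divisors, Finset.mem_filter, Finset.mem_Icc] at hm
      have hm0 : 1 ≤ m := Nat.one_le_iff_ne_zero.2 (fun h => hm.1.2 (by
        have := hm.1.1
        rw [h, zero_dvd_iff] at this
        exact this))
      have h2 : D ^ 2 < m := by
        by_contra hcon
        exact hm.2 ⟨⟨hm0, by omega⟩, hm.1.1⟩
      rw [hd_zero_DH0 e δ D m hD1 h2, zero_mul, zero_mul]
    · intro m _
      rfl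
  rw [Finset.sum_congr rfl h1, Finset.sum_comm]
  refine Finset.sum_congr rfl (fun m hm => ?_)
  rw [Finset.mem_Icc] at hm
  rw [mult_DH0 (fun n => hd e δ D m * ff e δ (n / m) * (n : ℝ) ^ (-s)) m ⌊x⌋₊ hm.1]
  unfold TT
  rw [Nat.floor_div_natCast, Finset.mul_sum]
  refine Finset.sum_congr rfl (fun k _ => ?_)
  rw [Nat.mul_div_cancel_left k hm.1, Nat.cast_mul,
    Real.mul_rpow (Nat.cast_nonneg m) (Nat.cast_nonneg k)]
  ring

private theorem sd_sq_DH0 (θ : ℕ → ℝ) (z : ℕ) (hz : ∀ d, z < d → θ d = 0) (n : ℕ) (hn : 1 ≤ n) :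
    sd θ n ^ 2 = ∑ d₁ ∈ Icc 1 z, ∑ d₂ ∈ Icc 1 z,
      (if Nat.lcm d₁ d₂ ∣ n then θ d₁ * θ d₂ else 0) := by
  have h1 : sd θ n = ∑ d ∈ Icc 1 z, (if d ∣ n then θ d else 0) := by
    unfold sd
    rw [← Finset.sum_filter]
    symm
    refine Finset.sum_subset_zero_on_sdiff ?_ ?_ ?_
    · intro m hm
      rw [Finset.mem_filter, Finset.mem_Icc] at hm
      exact Nat.mem_divisors.2 ⟨hm.2, by omega⟩
    · intro m hm
      rw [Finset.mem_sdiff, Nat.mem_divisors, Finset.mem_filter, Finset.mem_Icc] at hm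
      have hm0 : 1 ≤ m := Nat.one_le_iff_ne_zero.2 (fun h => hm.1.2 (by
        have := hm.1.1
        rw [h, zero_dvd_iff] at this
        exact this))
      refine hz m ?_
      by_contra hcon
      exact hm.2 ⟨⟨hm0, by omega⟩, hm.1.1⟩
    · intro m _
      rfl
  rw [h1, sq, Finset.sum_mul_sum]
  refine Finset.sum_congr rfl (fun a _ => Finset.sum_congr rfl (fun b _ => ?_))
  by_cases ha : a ∣ n
  · by_cases hb : b ∣ n
    · rw [if_pos ha, if_pos hb, if_pos (Nat.lcm_dvd ha hb)]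
    · rw [if_neg hb, mul_zero, if_neg (fun h => hb ((Nat.dvd_lcm_right a b).trans h))]
  · rw [if_neg ha, zero_mul, if_neg (fun h => ha ((Nat.dvd_lcm_left a b).trans h))]

private theorem expand_DH0 (e : PCh) (δ s : ℝ) (θ : ℕ → ℝ) (z : ℕ) (hz : ∀ d, z < d → θ d = 0)
    (N : ℕ) :
    ∑ n ∈ Ioc 0 N, ff e δ n * sd θ n ^ 2 * (n : ℝ) ^ (-s) =
      ∑ d₁ ∈ Icc 1 z, ∑ d₂ ∈ Icc 1 z, θ d₁ * θ d₂ *
        ∑ n ∈ Ioc 0 N, (if Nat.lcm d₁ d₂ ∣ n then ff e δ n else 0) * (n : ℝ) ^ (-s) := by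
  have h1 : ∀ n ∈ Ioc 0 N, ff e δ n * sd θ n ^ 2 * (n : ℝ) ^ (-s) =
      ∑ d₁ ∈ Icc 1 z, ∑ d₂ ∈ Icc 1 z, θ d₁ * θ d₂ *
        ((if Nat.lcm d₁ d₂ ∣ n then ff e δ n else 0) * (n : ℝ) ^ (-s)) := by
    intro n hn
    rw [Finset.mem_Ioc] at hn
    rw [sd_sq_DH0 θ z hz n hn.1, Finset.mul_sum, Finset.sum_mul]
    refine Finset.sum_congr rfl (fun a _ => ?_)
    rw [Finset.mul_sum, Finset.sum_mul]
    refine Finset.sum_congr rfl (fun b _ => ?_)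
    split_ifs
    · ring
    · ring
  rw [Finset.sum_congr rfl h1, Finset.sum_comm]
  refine Finset.sum_congr rfl (fun a _ => ?_)
  rw [Finset.sum_comm]
  refine Finset.sum_congr rfl (fun b _ => ?_)
  rw [Finset.mul_sum]

/-- lcm of squarefree numbers -/
private theorem sqf_lcm_DH0 {a b : ℕ} (ha : Squarefree a) (hb : Squarefree b) :
    Squarefree (Nat.lcm a b) := by
  rw [Nat.squarefree_iff_factorization_le_one (Nat.lcm_ne_zero ha.ne_zero hb.ne_zero)]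
  intro p
  rw [Nat.factorization_lcm ha.ne_zero hb.ne_zero, Finsupp.sup_apply]
  exact sup_le ((Nat.squarefree_iff_factorization_le_one ha.ne_zero).1 ha p)
    ((Nat.squarefree_iff_factorization_le_one hb.ne_zero).1 hb p)

/-- the main computation: the sifted sum is the main term up to the error -/
private theorem main_DH0 (hHdi : StHdi) (e : PCh) (δ s x La E Bd : ℝ) (he : e.χ ^ 2 = 1) (hδ : 0 ≤ δ)
    (θ : ℕ → ℝ) (z : ℕ) (hz : ∀ d, z < d → θ d = 0) (hθ : ∀ d, |θ d| ≤ 1)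
    (hsq : ∀ d, ¬ Squarefree d → θ d = 0) (hs : s = 1 - 2 * δ) (hx : 0 < x) (hE : 0 ≤ E)
    (hT : ∀ m : ℕ, 1 ≤ m → m ≤ z ^ 4 → |TT e δ s (x / m) - La * (x / m) ^ (2 * δ)| ≤ E)
    (hB : ∑ d₁ ∈ (Icc 1 z).filter Squarefree, ∑ d₂ ∈ (Icc 1 z).filter Squarefree,
      ∑ m ∈ Icc 1 ((Nat.lcm d₁ d₂) ^ 2), |hd e δ (Nat.lcm d₁ d₂) m| * (m : ℝ) ^ (-s) ≤ Bd) :
    |∑ n ∈ Ioc 0 ⌊x⌋₊, ff e δ n * sd θ n ^ 2 * (n : ℝ) ^ (-s) - La * x ^ (2 * δ) *
      ∑ d₁ ∈ Icc 1 z, ∑ d₂ ∈ Icc 1 z, θ d₁ * θ d₂ * gD (gf e δ) (Nat.lcm d₁ d₂)| ≤ E * Bd := by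
  have hfil : ∀ F : ℕ → ℕ → ℝ, ∑ d₁ ∈ Icc 1 z, ∑ d₂ ∈ Icc 1 z, θ d₁ * θ d₂ * F d₁ d₂ =
      ∑ d₁ ∈ (Icc 1 z).filter Squarefree, ∑ d₂ ∈ (Icc 1 z).filter Squarefree,
        θ d₁ * θ d₂ * F d₁ d₂ := by
    intro F
    rw [Finset.sum_filter]
    refine Finset.sum_congr rfl (fun a _ => ?_)
    split_ifs with ha
    · rw [Finset.sum_filter]
      refine Finset.sum_congr rfl (fun b _ => ?_)
      split_ifs with hb
      · rfl
      · rw [hsq b hb, mul_zero, zero_mul]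
    · refine Finset.sum_eq_zero (fun b _ => ?_)
      rw [hsq a ha, zero_mul, zero_mul]
  rw [expand_DH0 e δ s θ z hz, Finset.mul_sum]
  have h1 : ∑ d₁ ∈ Icc 1 z, La * x ^ (2 * δ) * ∑ d₂ ∈ Icc 1 z, θ d₁ * θ d₂ *
      gD (gf e δ) (Nat.lcm d₁ d₂) = ∑ d₁ ∈ Icc 1 z, ∑ d₂ ∈ Icc 1 z, θ d₁ * θ d₂ *
      (La * x ^ (2 * δ) * gD (gf e δ) (Nat.lcm d₁ d₂)) := by
    refine Finset.sum_congr rfl (fun a _ => ?_)
    rw [Finset.mul_sum]
    refine Finset.sum_congr rfl (fun b _ => ?_)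
    ring
  rw [h1, ← Finset.sum_sub_distrib]
  have h2 : ∑ d₁ ∈ Icc 1 z, (∑ d₂ ∈ Icc 1 z, θ d₁ * θ d₂ *
        ∑ n ∈ Ioc 0 ⌊x⌋₊, (if Nat.lcm d₁ d₂ ∣ n then ff e δ n else 0) * (n : ℝ) ^ (-s) -
        ∑ d₂ ∈ Icc 1 z, θ d₁ * θ d₂ * (La * x ^ (2 * δ) * gD (gf e δ) (Nat.lcm d₁ d₂))) =
      ∑ d₁ ∈ Icc 1 z, ∑ d₂ ∈ Icc 1 z, θ d₁ * θ d₂ *
        (∑ n ∈ Ioc 0 ⌊x⌋₊, (if Nat.lcm d₁ d₂ ∣ n then ff e δ n else 0) * (n : ℝ) ^ (-s) -
        La * x ^ (2 * δ) * gD (gf e δ) (Nat.lcm d₁ d₂)) := by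
    refine Finset.sum_congr rfl (fun a _ => ?_)
    rw [← Finset.sum_sub_distrib]
    refine Finset.sum_congr rfl (fun b _ => ?_)
    ring
  rw [h2, hfil]
  refine le_trans ?_ (mul_le_mul_of_nonneg_left hB hE)
  rw [Finset.mul_sum]
  refine (Finset.abs_sum_le_sum_abs _ _).trans (Finset.sum_le_sum (fun a ha => ?_))
  rw [Finset.mul_sum]
  refine (Finset.abs_sum_le_sum_abs _ _).trans (Finset.sum_le_sum (fun b hb => ?_))
  rw [Finset.mem_filter, Finset.mem_Icc] at ha hb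
  set D := Nat.lcm a b with hDdef
  have hD : Squarefree D := sqf_lcm_DH0 ha.2 hb.2
  have hDz : D ≤ z ^ 2 := by
    have h3 : D ≤ a * b := Nat.le_of_dvd (Nat.mul_pos ha.1.1 hb.1.1) (Nat.lcm_dvd_mul a b)
    calc D ≤ a * b := h3
      _ ≤ z * z := Nat.mul_le_mul ha.1.2 hb.1.2
      _ = z ^ 2 := by ring
  have hD4 : D ^ 2 ≤ z ^ 4 := by
    calc D ^ 2 ≤ (z ^ 2) ^ 2 := Nat.pow_le_pow_left hDz 2
      _ = z ^ 4 := by ring
  rw [abs_mul, abs_mul]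
  have h4 : |θ a| * |θ b| ≤ 1 := by
    calc |θ a| * |θ b| ≤ 1 * 1 := mul_le_mul (hθ a) (hθ b) (abs_nonneg _) zero_le_one
      _ = 1 := one_mul 1
  refine (mul_le_mul_of_nonneg_right h4 (abs_nonneg _)).trans ?_
  rw [one_mul, sumD_DH0 hHdi e δ s x he hδ D hD, ← (hHdi e δ he hδ D hD).2.2, Finset.mul_sum,
    ← Finset.sum_sub_distrib, Finset.mul_sum]
  refine (Finset.abs_sum_le_sum_abs _ _).trans (Finset.sum_le_sum (fun m hm => ?_))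
  rw [Finset.mem_Icc] at hm
  have hm0 : (0 : ℝ) < m := by exact_mod_cast hm.1
  have h5 : La * x ^ (2 * δ) * (hd e δ D m / m) =
      hd e δ D m * (m : ℝ) ^ (-s) * (La * (x / m) ^ (2 * δ)) := by
    rw [Real.div_rpow hx.le hm0.le]
    have h6 : (m : ℝ) ^ (-s) = (m : ℝ) ^ (2 * δ) / m := by
      rw [hs, show -(1 - 2 * δ) = 2 * δ - 1 by ring, Real.rpow_sub_one hm0.ne']
    have h7 : (m : ℝ) ^ (2 * δ) ≠ 0 := (Real.rpow_pos_of_pos hm0 _).ne'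
    rw [h6]
    field_simp
  rw [h5, ← mul_sub, abs_mul, abs_mul, abs_of_pos (Real.rpow_pos_of_pos hm0 _)]
  calc |hd e δ D m| * (m : ℝ) ^ (-s) * |TT e δ s (x / m) - La * (x / m) ^ (2 * δ)|
      ≤ |hd e δ D m| * (m : ℝ) ^ (-s) * E := by
        refine mul_le_mul_of_nonneg_left (hT m hm.1 (hm.2.trans hD4)) ?_
        positivity
    _ = E * (|hd e δ D m| * (m : ℝ) ^ (-s)) := by ring

private theorem ev_DH0 (c₁ κ : ℝ) (hc : 0 < c₁) (hκ : 0 < κ) (C3 : ℕ) : ∃ X0 : ℝ, ∀ X : ℝ, X0 ≤ X →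
    2 ≤ X ^ (κ / 2) ∧ X ^ (-c₁) ≤ 1 / 8 ∧ 1 / c₁ ≤ Real.log X ∧ 1 ≤ Real.log X ∧
      3 * (2 + Real.log X) ^ C3 * X ^ (-(c₁ / 2)) ≤ 1 := by
  have e1 : ∀ᶠ X : ℝ in Filter.atTop, 2 ≤ X ^ (κ / 2) :=
    (tendsto_rpow_atTop (by linarith : 0 < κ / 2)).eventually_ge_atTop 2
  have e2 : ∀ᶠ X : ℝ in Filter.atTop, X ^ (-c₁) ≤ 1 / 8 :=
    (tendsto_rpow_neg_atTop hc).eventually_le_const (by norm_num)
  have e3 : ∀ᶠ X : ℝ in Filter.atTop, 1 / c₁ ≤ Real.log X :=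
    Real.tendsto_log_atTop.eventually_ge_atTop _
  have e4 : ∀ᶠ X : ℝ in Filter.atTop, 1 ≤ Real.log X :=
    Real.tendsto_log_atTop.eventually_ge_atTop _
  have e5 : ∀ᶠ X : ℝ in Filter.atTop, ‖Real.log X ^ (C3 : ℝ)‖ ≤
      (1 / (3 * 3 ^ C3)) * ‖X ^ (c₁ / 2)‖ :=
    (isLittleO_log_rpow_rpow_atTop (C3 : ℝ) (by linarith : 0 < c₁ / 2)).bound (by positivity)
  have e6 : ∀ᶠ X : ℝ in Filter.atTop, (1 : ℝ) ≤ X := Filter.eventually_ge_atTop 1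
  obtain ⟨X0, h⟩ := Filter.eventually_atTop.1
    (e1.and (e2.and (e3.and (e4.and (e5.and e6)))))
  refine ⟨X0, fun X hX => ?_⟩
  obtain ⟨h1, h2, h3, h4, h5, h6⟩ := h X hX
  refine ⟨h1, h2, h3, h4, ?_⟩
  have hX0 : 0 < X := by linarith
  have hp : 0 < X ^ (c₁ / 2) := Real.rpow_pos_of_pos hX0 _
  rw [Real.rpow_natCast, Real.norm_of_nonneg (by positivity), Real.norm_of_nonneg hp.le] at h5
  have h7 : (2 + Real.log X) ^ C3 ≤ 3 ^ C3 * Real.log X ^ C3 := by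
    rw [← mul_pow]
    exact pow_le_pow_left₀ (by linarith) (by linarith) _
  have h8 : (3 * 3 ^ C3 : ℝ) * Real.log X ^ C3 ≤ X ^ (c₁ / 2) := by
    calc (3 * 3 ^ C3 : ℝ) * Real.log X ^ C3 ≤ (3 * 3 ^ C3 : ℝ) * ((1 / (3 * 3 ^ C3)) * X ^ (c₁ / 2)) :=
          mul_le_mul_of_nonneg_left h5 (by positivity)
      _ = X ^ (c₁ / 2) := by field_simp
  rw [Real.rpow_neg hX0.le]
  calc 3 * (2 + Real.log X) ^ C3 * (X ^ (c₁ / 2))⁻¹ ≤ X ^ (c₁ / 2) * (X ^ (c₁ / 2))⁻¹ := by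
        refine mul_le_mul_of_nonneg_right ?_ (by positivity)
        calc 3 * (2 + Real.log X) ^ C3 ≤ 3 * (3 ^ C3 * Real.log X ^ C3) := by linarith
          _ = (3 * 3 ^ C3 : ℝ) * Real.log X ^ C3 := by ring
          _ ≤ _ := h8
    _ = 1 := mul_inv_cancel₀ hp.ne'

private theorem pw_DH0 (X a b δ : ℝ) (hX : 1 ≤ X) (h0 : 0 ≤ a * b * (δ * Real.log X))
    (h : a * b * (δ * Real.log X) ≤ 1) :
    (X ^ a) ^ (b * δ) ≤ 1 + 2 * (a * b * (δ * Real.log X)) := by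
  have hX0 : 0 < X := by linarith
  have h1 : (X ^ a) ^ (b * δ) = Real.exp (a * b * (δ * Real.log X)) := by
    rw [← Real.rpow_mul hX0.le, Real.rpow_def_of_pos hX0]
    congr 1
    ring
  have h2 := Real.abs_exp_sub_one_le (x := a * b * (δ * Real.log X))
    (by rw [abs_of_nonneg h0]; exact h)
  rw [abs_of_nonneg h0] at h2
  have h3 := le_abs_self (Real.exp (a * b * (δ * Real.log X)) - 1)
  rw [h1]
  linarith

private theorem ar1_DH0 (t : ℝ) (h : 2 ≤ t) : 4 ≤ t * t ∧ t + 1 ≤ t * t := by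
  constructor <;> nlinarith

private theorem ar2_DH0 (κ d : ℝ) (h0 : 0 < κ) (h1 : κ ≤ 1 / 10) (h2 : 0 ≤ d) :
    0 ≤ κ * d ∧ κ * d ≤ d / 10 := by
  constructor
  · positivity
  · nlinarith

private theorem ar3_DH0 (La w : ℝ) (h1 : 1 ≤ w) (h2 : w ≤ 2) (h : 7 / 8 ≤ La * w) : 7 / 16 ≤ La := by
  by_contra hcon
  push Not at hcon
  nlinarith

private theorem ar4_DH0 (a w ε : ℝ) (h1 : 1 ≤ w) (h0 : 0 < ε) (h : w * a ≤ ε) : a ≤ ε := by
  by_contra hcon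
  push Not at hcon
  nlinarith

private theorem ar5_DH0 (La G ε : ℝ) (h0 : 0 < ε) (h8 : ε ≤ 1 / 8) (h1 : 7 / 16 ≤ La)
    (h : La - ε ≤ G) : La ≤ (1 + 8 * ε) * G := by
  have h2 : (1 + 8 * ε) * (La - ε) ≤ (1 + 8 * ε) * G := mul_le_mul_of_nonneg_left h (by linarith)
  nlinarith

private theorem ar6_DH0 (d ε : ℝ) (h0 : 0 < ε) (h8 : ε ≤ 1 / 8) (hd : 0 ≤ d) (h : ε ≤ d) :
    (1 + 2 * d) * (1 + 8 * ε) ≤ 1 + 12 * d := by
  nlinarith

theorem hDh0 : StFfb → StHdi → StTf3 → StGlo → StLct → StSel → StDh0 := by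
  intro hF hH hT hG hL hS κ hκ hκ1
  obtain ⟨c₁, X1, hc1, hc1κ, hX1, hT3⟩ := hT (κ / 2) (by linarith) (by linarith)
  obtain ⟨C3, hL3⟩ := hL
  obtain ⟨X2, hX2⟩ := ev_DH0 c₁ κ hc1 hκ C3
  refine ⟨c₁ / 2, 27, max X1 X2, by linarith, by linarith, by norm_num,
    hX1.trans (le_max_left _ _), ?_⟩
  intro X e δ hX her he hδX hδL heL
  obtain ⟨k1, k2, k3, k4, k5⟩ := hX2 X ((le_max_right _ _).trans hX)
  have hXX1 : X1 ≤ X := (le_max_left _ _).trans hX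
  have hX2' : 2 ≤ X := hX1.trans hXX1
  have hXp : 0 < X := by linarith
  have hXo : 1 ≤ X := by linarith
  have he2 : e.χ ^ 2 = 1 := he.1
  have hδ0 : 0 < δ := lt_of_lt_of_le (Real.rpow_pos_of_pos hXp _) hδX
  obtain ⟨_, hf1, _, hfn, _, hgf⟩ := hF e δ he2 hδ0.le
  set L := Real.log X with hLdef
  set R := (e.L (1 + δ)).re with hRdef
  set ε := X ^ (-c₁) with hε
  set ε' := X ^ (-(c₁ / 2)) with hε'
  have hε0 : 0 < ε := Real.rpow_pos_of_pos hXp _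
  have hε'0 : 0 < ε' := Real.rpow_pos_of_pos hXp _
  have hεε : ε ≤ ε' := Real.rpow_le_rpow_of_exponent_le hXo (by linarith)
  have hεsq : ε = ε' * ε' := by
    rw [hε, hε', ← Real.rpow_add hXp]
    congr 1
    ring
  have hδc : δ ≤ c₁ := by
    have h1 : 1 ≤ c₁ * L := by
      rw [div_le_iff₀ hc1] at k3
      linarith
    have h2 : δ * L ≤ c₁ * L := hδL.trans h1
    exact le_of_mul_le_mul_right h2 (by linarith)
  have hδL0 : 0 ≤ δ * L := by positivity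
  have hδδL : δ ≤ δ * L := le_mul_of_one_le_right hδ0.le k4
  have hkd := ar2_DH0 κ (δ * L) hκ hκ1 hδL0
  -- TF3
  have hTF : ∀ y : ℝ, X ^ (κ / 2) ≤ y → y ≤ X →
      |TT e δ (1 - 2 * δ) y - R / (2 * δ) * y ^ (2 * δ)| ≤ ε := by
    intro y hy1 hy2
    have h1 := hT3 X y e δ hXX1 (her.trans (Real.rpow_le_rpow_of_exponent_le hXo (by linarith))) he
      (hεε.trans hδX) hδc heL hy1 hy2
    have h2 : y ^ (2 * δ) / (2 * δ) * R = R / (2 * δ) * y ^ (2 * δ) := by ring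
    rw [← hRdef, h2] at h1
    exact h1
  set La := R / (2 * δ) with hLa
  set z := ⌊X ^ κ⌋₊ with hz
  have hXκ : X ^ κ = X ^ (κ / 2) * X ^ (κ / 2) := by
    rw [← Real.rpow_add hXp]
    congr 1
    ring
  have hXκ4 : 4 ≤ X ^ κ := by rw [hXκ]; exact (ar1_DH0 _ k1).1
  have hzle : (z : ℝ) ≤ X ^ κ := Nat.floor_le (by positivity)
  have hzge : X ^ (κ / 2) ≤ z := by
    have h1 : X ^ κ < z + 1 := Nat.lt_floor_add_one _
    have h2 : X ^ (κ / 2) + 1 ≤ X ^ κ := by rw [hXκ]; exact (ar1_DH0 _ k1).2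
    linarith
  have hz2 : (2 : ℝ) ≤ z := k1.trans hzge
  have hz1 : 1 ≤ z := by
    have : (1 : ℝ) ≤ z := by linarith
    exact_mod_cast this
  have hzX : (z : ℝ) ≤ X := hzle.trans (by
    calc X ^ κ ≤ X ^ (1 : ℝ) := Real.rpow_le_rpow_of_exponent_le hXo (by linarith)
      _ = X := Real.rpow_one X)
  obtain ⟨θ, hθ1, hθa, hθz, hθs, hQ⟩ := hS (gf e δ) z hz1 hgf
  set Q := ∑ d₁ ∈ Icc 1 z, ∑ d₂ ∈ Icc 1 z, θ d₁ * θ d₂ * gD (gf e δ) (Nat.lcm d₁ d₂) with hQdef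
  set G := ∑ d ∈ (Icc 1 z).filter Squarefree, gD (fun p => gf e δ p / (1 - gf e δ p)) d with hGdef
  have hGlo : ∑ n ∈ Icc 1 z, ff e δ n / n ≤ G := hG e δ z he2 hδ0.le hz1
  have hIoc : Ioc 0 z = Icc 1 z := by ext n; simp [Nat.succ_le_iff]
  -- lower bounds
  have hz2δ1 : 1 ≤ (z : ℝ) ^ (2 * δ) := Real.one_le_rpow (by linarith) (by positivity)
  have hz2δ : (z : ℝ) ^ (2 * δ) ≤ 2 := by
    have h1 : (z : ℝ) ^ (2 * δ) ≤ (X ^ κ) ^ (2 * δ) :=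
      Real.rpow_le_rpow (by positivity) hzle (by positivity)
    have h2 := pw_DH0 X κ 2 δ hXo (by positivity) (by rw [← hLdef]; linarith [hkd.2])
    rw [← hLdef] at h2
    linarith [hkd.2]
  have hTz1 : 1 ≤ TT e δ (1 - 2 * δ) z := by
    unfold TT
    rw [Nat.floor_natCast]
    have h1 : ff e δ 1 * ((1 : ℕ) : ℝ) ^ (-(1 - 2 * δ)) = 1 := by
      rw [hf1, Nat.cast_one, Real.one_rpow, mul_one]
    refine h1.symm.le.trans ?_
    exact Finset.single_le_sum (f := fun n : ℕ => ff e δ n * (n : ℝ) ^ (-(1 - 2 * δ)))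
      (fun n _ => mul_nonneg (hfn n) (by positivity)) (Finset.mem_Ioc.2 ⟨one_pos, hz1⟩)
  have hTz2 := hTF z hzge hzX
  have hTz3 := abs_le.1 hTz2
  have hLa1 : 7 / 16 ≤ La := by
    have h1 : 7 / 8 ≤ La * (z : ℝ) ^ (2 * δ) := by linarith [hTz3.2]
    exact ar3_DH0 _ _ hz2δ1 hz2δ h1
  have hGL : La - ε ≤ G := by
    have h1 : TT e δ (1 - 2 * δ) z ≤ (z : ℝ) ^ (2 * δ) * G := by
      refine le_trans ?_ (mul_le_mul_of_nonneg_left hGlo (by positivity))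
      unfold TT
      rw [Nat.floor_natCast, hIoc, Finset.mul_sum]
      refine Finset.sum_le_sum (fun n hn => ?_)
      rw [Finset.mem_Icc] at hn
      have hn0 : (0 : ℝ) < n := by exact_mod_cast hn.1
      have h2 : (n : ℝ) ^ (-(1 - 2 * δ)) = (n : ℝ) ^ (2 * δ) / n := by
        rw [show -(1 - 2 * δ) = 2 * δ - 1 by ring, Real.rpow_sub_one hn0.ne']
      have h3 : (n : ℝ) ^ (2 * δ) ≤ (z : ℝ) ^ (2 * δ) :=
        Real.rpow_le_rpow hn0.le (by exact_mod_cast hn.2) (by positivity)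
      rw [h2]
      calc ff e δ n * ((n : ℝ) ^ (2 * δ) / n) = (n : ℝ) ^ (2 * δ) * (ff e δ n / n) := by ring
        _ ≤ (z : ℝ) ^ (2 * δ) * (ff e δ n / n) :=
          mul_le_mul_of_nonneg_right h3 (div_nonneg (hfn n) hn0.le)
    have h2 : (z : ℝ) ^ (2 * δ) * (La - G) ≤ ε := by linarith [hTz3.1]
    have h3 := ar4_DH0 _ _ _ hz2δ1 hε0 h2
    linarith
  have hG0 : 0 < G := by linarith
  have hLQ : La * Q ≤ 1 + 8 * ε := by
    rw [hQ, mul_one_div, div_le_iff₀ hG0]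
    exact ar5_DH0 La G ε hε0 k2 hLa1 hGL
  have hQ0 : 0 ≤ Q := by rw [hQ]; positivity
  -- the main sum
  have hxX : X ^ (5 * κ) ≤ X := by
    calc X ^ (5 * κ) ≤ X ^ (1 : ℝ) := Real.rpow_le_rpow_of_exponent_le hXo (by linarith)
      _ = X := Real.rpow_one X
  have hmain := main_DH0 hH e δ (1 - 2 * δ) (X ^ (5 * κ)) La ε
    ((X ^ κ) ^ (4 * (1 - (1 - 2 * δ))) * (2 + Real.log (X ^ κ)) ^ C3) he2 hδ0.le θ z hθz hθa hθs rfl
    (Real.rpow_pos_of_pos hXp _) hε0.le (by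
      intro m hm1 hm2
      have hm0 : (0 : ℝ) < m := by exact_mod_cast hm1
      have hm4 : (m : ℝ) ≤ X ^ (4 * κ) := by
        have h1 : (m : ℝ) ≤ (z : ℝ) ^ 4 := by exact_mod_cast hm2
        have h2 : (z : ℝ) ^ 4 ≤ (X ^ κ) ^ 4 := pow_le_pow_left₀ (by positivity) hzle 4
        have h3 : (X ^ κ) ^ 4 = X ^ (4 * κ) := by
          rw [← Real.rpow_natCast, ← Real.rpow_mul hXp.le]
          congr 1
          push_cast
          ring
        linarith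
      refine hTF _ ?_ ?_
      · rw [le_div_iff₀ hm0]
        calc X ^ (κ / 2) * m ≤ X ^ κ * X ^ (4 * κ) := by
              refine mul_le_mul (Real.rpow_le_rpow_of_exponent_le hXo (by linarith)) hm4 hm0.le
                (by positivity)
          _ = X ^ (5 * κ) := by
              rw [← Real.rpow_add hXp]
              congr 1
              ring
      · refine (div_le_self (by positivity) (by exact_mod_cast hm1)).trans hxX)
    (by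
      have h1 := hL3 e δ (1 - 2 * δ) (X ^ κ) he2 hδ0.le (by linarith) (by linarith)
      exact h1)
  rw [← hQdef] at hmain
  have hBd : (X ^ κ) ^ (4 * (1 - (1 - 2 * δ))) * (2 + Real.log (X ^ κ)) ^ C3 ≤
      3 * (2 + L) ^ C3 := by
    have h1 : (X ^ κ) ^ (4 * (1 - (1 - 2 * δ))) ≤ 3 := by
      have h2 := pw_DH0 X κ 8 δ hXo (by positivity) (by rw [← hLdef]; linarith [hkd.2])
      rw [show 4 * (1 - (1 - 2 * δ)) = 8 * δ by ring]
      rw [← hLdef] at h2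
      linarith [hkd.2]
    have h2 : Real.log (X ^ κ) = κ * L := Real.log_rpow hXp κ
    rw [h2]
    have h3 : κ * L ≤ L := mul_le_of_le_one_left (by linarith) (by linarith)
    exact mul_le_mul h1 (pow_le_pow_left₀ (by positivity) (by linarith) _) (by positivity)
      (by norm_num)
  have herr : ε * ((X ^ κ) ^ (4 * (1 - (1 - 2 * δ))) * (2 + Real.log (X ^ κ)) ^ C3) ≤ ε' := by
    calc ε * ((X ^ κ) ^ (4 * (1 - (1 - 2 * δ))) * (2 + Real.log (X ^ κ)) ^ C3)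
        ≤ ε * (3 * (2 + L) ^ C3) := mul_le_mul_of_nonneg_left hBd hε0.le
      _ = ε' * (3 * (2 + L) ^ C3 * ε') := by rw [hεsq]; ring
      _ ≤ ε' * 1 := mul_le_mul_of_nonneg_left k5 hε'0.le
      _ = ε' := mul_one _
  have hx2δ : (X ^ (5 * κ)) ^ (2 * δ) ≤ 1 + 2 * (δ * L) := by
    have h2 := pw_DH0 X (5 * κ) 2 δ hXo (by positivity) (by rw [← hLdef]; linarith [hkd.2])
    rw [← hLdef] at h2
    linarith [hkd.2]
  have hS1 : ∑ n ∈ Ioc 0 ⌊X ^ (5 * κ)⌋₊, ff e δ n * sd θ n ^ 2 * (n : ℝ) ^ (-(1 - 2 * δ)) ≤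
      1 + 27 * (δ * L) := by
    have h1 := (abs_le.1 hmain).2
    have h2 : La * (X ^ (5 * κ)) ^ (2 * δ) * Q ≤ (1 + 2 * (δ * L)) * (1 + 8 * ε) := by
      calc La * (X ^ (5 * κ)) ^ (2 * δ) * Q = (X ^ (5 * κ)) ^ (2 * δ) * (La * Q) := by ring
        _ ≤ (1 + 2 * (δ * L)) * (1 + 8 * ε) := by
          refine mul_le_mul hx2δ hLQ (mul_nonneg (by linarith) hQ0) (by positivity)
    have h3 : ε ≤ δ * L := hεε.trans (hδX.trans hδδL)
    have h4 : ε' ≤ δ * L := hδX.trans hδδL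
    have h5 := ar6_DH0 (δ * L) ε hε0 k2 hδL0 h3
    linarith
  have hN1 : 1 ≤ ⌊X ^ (5 * κ)⌋₊ := by
    refine Nat.one_le_iff_ne_zero.2 (fun h => ?_)
    rw [Nat.floor_eq_zero] at h
    have h1 : 1 ≤ X ^ (5 * κ) := Real.one_le_rpow hXo (by positivity)
    linarith
  have hsplit : ∑ n ∈ Ioc 0 ⌊X ^ (5 * κ)⌋₊, ff e δ n * sd θ n ^ 2 * (n : ℝ) ^ (-(1 - 2 * δ)) =
      1 + ∑ n ∈ Ioc 1 ⌊X ^ (5 * κ)⌋₊, ff e δ n * sd θ n ^ 2 * (n : ℝ) ^ (-(1 - 2 * δ)) := by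
    have h1 : Ioc 0 ⌊X ^ (5 * κ)⌋₊ = insert 1 (Ioc 1 ⌊X ^ (5 * κ)⌋₊) := by
      ext n
      simp only [Finset.mem_Ioc, Finset.mem_insert]
      omega
    rw [h1, Finset.sum_insert (by simp)]
    congr 1
    have h2 : sd θ 1 = 1 := by
      unfold sd
      rw [Nat.divisors_one, Finset.sum_singleton, hθ1]
    rw [h2, hf1, Nat.cast_one, Real.one_rpow]
    norm_num
  refine ⟨θ, hθ1, hθa, fun d hd => hθz d ((Nat.floor_lt (by positivity)).2 hd), hθs, ?_, hQ0, ?_⟩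
  · have h1 : ∑ n ∈ Ioc 1 ⌊X ^ (5 * κ)⌋₊, ff e δ n * sd θ n ^ 2 / n ≤
        ∑ n ∈ Ioc 1 ⌊X ^ (5 * κ)⌋₊, ff e δ n * sd θ n ^ 2 * (n : ℝ) ^ (-(1 - 2 * δ)) := by
      refine Finset.sum_le_sum (fun n hn => ?_)
      rw [Finset.mem_Ioc] at hn
      have hn1 : (1 : ℝ) ≤ n := by exact_mod_cast hn.1.le
      rw [div_eq_mul_inv, ← Real.rpow_neg_one]
      exact mul_le_mul_of_nonneg_left (Real.rpow_le_rpow_of_exponent_le hn1 (by linarith))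
        (mul_nonneg (hfn n) (sq_nonneg _))
    linarith
  · have h1 : R = 2 * δ * La := by
      rw [hLa]
      field_simp
    rw [h1, abs_of_nonneg (by positivity)]
    calc Q * (2 * δ * La) = 2 * δ * (La * Q) := by ring
      _ ≤ 2 * δ * (1 + 8 * ε) := mul_le_mul_of_nonneg_left hLQ (by positivity)
      _ ≤ 2 * δ * (1 + 8 * (1 / 8)) := by
        refine mul_le_mul_of_nonneg_left ?_ (by positivity)
        linarith
      _ ≤ 27 * δ := by linarith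

end Pool.Agent.Helper70.MV
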